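import Mathlib

open MeasureTheory Set Filter Topology
open scoped ENNReal NNReal

set_option linter.unusedSectionVars false

namespace Pool.Agent.helper25.Polar

variable {X : Type*} [NormedAddCommGroup X] [NormedSpace ℝ X]

/-- The set of actions `∫₀ᵀ g (c t) dt` of `1`-Lipschitz paths `c` on `[0,T]` from `E` to `x`. -/
def actions (g : X → ℝ) (E : Set X) (x : X) : Set ℝ :=
  {a | ∃ T : ℝ, 0 ≤ T ∧ ∃ c : ℝ → X, LipschitzWith 1 c ∧ c 0 ∈ E ∧ c T = x ∧
    a = ∫ t in (0:ℝ)..T, g (c t)}

/-- The potential: infimum of actions from `E` to `x`. -/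
noncomputable def pot (g : X → ℝ) (E : Set X) (x : X) : ℝ := sInf (actions g E x)

/-- Concatenation of two paths. -/
def concat (T : ℝ) (c d : ℝ → X) : ℝ → X := fun t => c (min t T) + d (max (t - T) 0) - d 0

lemma concat_lipschitz (T : ℝ) {c d : ℝ → X} (hc : LipschitzWith 1 c) (hd : LipschitzWith 1 d) :
    LipschitzWith 1 (concat T c d) := by
  apply LipschitzWith.of_dist_le_mul
  intro s t
  wlog hst : s ≤ t generalizing s t
  · rw [dist_comm, dist_comm s t]; exact this t s (le_of_not_ge hst)
  have h1 : dist (c (min s T)) (c (min t T)) ≤ |min s T - min t T| := by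
    have := hc.dist_le_mul (min s T) (min t T)
    simpa [Real.dist_eq] using this
  have h2 : dist (d (max (s - T) 0)) (d (max (t - T) 0)) ≤ |max (s - T) 0 - max (t - T) 0| := by
    have := hd.dist_le_mul (max (s - T) 0) (max (t - T) 0)
    simpa [Real.dist_eq] using this
  have h3 : |min s T - min t T| + |max (s - T) 0 - max (t - T) 0| = |s - t| := by
    rcases le_total s T with h | h <;> rcases le_total t T with h' | h'
    · rw [min_eq_left h, min_eq_left h', max_eq_right (by linarith), max_eq_right (by linarith)]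
      simp
    · rw [min_eq_left h, min_eq_right h', max_eq_right (by linarith), max_eq_left (by linarith)]
      rw [abs_of_nonpos (by linarith), abs_of_nonpos (by linarith), abs_of_nonpos (by linarith)]
      ring
    · have : s = t := by linarith
      subst this; simp
    · rw [min_eq_right h, min_eq_right h', max_eq_left (by linarith), max_eq_left (by linarith)]
      simp
  calc dist (concat T c d s) (concat T c d t)
      ≤ dist (c (min s T)) (c (min t T)) + dist (d (max (s - T) 0)) (d (max (t - T) 0)) := by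
        simp only [concat, dist_eq_norm]
        calc _ = ‖(c (min s T) - c (min t T)) + (d (max (s - T) 0) - d (max (t - T) 0))‖ := by
              congr 1; abel
          _ ≤ _ := norm_add_le _ _
    _ ≤ |s - t| := by linarith
    _ = ((1:ℝ≥0):ℝ) * dist s t := by simp [Real.dist_eq]

lemma concat_of_le {T : ℝ} {c d : ℝ → X} {t : ℝ} (h : t ≤ T) :
    concat T c d t = c t := by
  simp [concat, min_eq_left h, max_eq_right (by linarith : t - T ≤ 0)]

lemma concat_of_ge {T : ℝ} {c d : ℝ → X} (hcd : c T = d 0) {t : ℝ} (h : T ≤ t) :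
    concat T c d t = d (t - T) := by
  simp [concat, min_eq_right h, max_eq_left (by linarith : 0 ≤ t - T), hcd]

lemma integral_concat {T S : ℝ} {c d : ℝ → X} (hT : 0 ≤ T) (hS : 0 ≤ S)
    (hc : LipschitzWith 1 c) (hd : LipschitzWith 1 d) (hcd : c T = d 0)
    {g : X → ℝ} (hg : Continuous g) :
    ∫ t in (0:ℝ)..(T + S), g (concat T c d t) =
      (∫ t in (0:ℝ)..T, g (c t)) + ∫ t in (0:ℝ)..S, g (d t) := by
  have hcont : Continuous fun t => g (concat T c d t) :=
    hg.comp (concat_lipschitz T hc hd).continuous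
  rw [← intervalIntegral.integral_add_adjacent_intervals (b := T)
    (hcont.intervalIntegrable _ _) (hcont.intervalIntegrable _ _)]
  congr 1
  · apply intervalIntegral.integral_congr
    intro t ht
    rw [uIcc_of_le hT] at ht
    simp only
    rw [concat_of_le ht.2]
  · have : ∫ t in T..(T + S), g (concat T c d t) = ∫ t in T..(T+S), g (d (t - T)) := by
      apply intervalIntegral.integral_congr
      intro t ht
      rw [uIcc_of_le (by linarith)] at ht
      simp only
      rw [concat_of_ge hcd ht.1]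
    rw [this, intervalIntegral.integral_comp_sub_right (fun t => g (d t)) T]
    simp

/-- Straight segment path. -/
noncomputable def seg (x y : X) : ℝ → X := fun t => x + t • (‖y - x‖⁻¹ • (y - x))

lemma seg_lipschitz (x y : X) : LipschitzWith 1 (seg x y) := by
  apply LipschitzWith.of_dist_le_mul
  intro s t
  simp only [seg, dist_eq_norm]
  have : x + s • (‖y - x‖⁻¹ • (y - x)) - (x + t • (‖y - x‖⁻¹ • (y - x))) =
      (s - t) • (‖y - x‖⁻¹ • (y - x)) := by
    rw [sub_smul]; abel
  rw [this, norm_smul, norm_smul, norm_inv, norm_norm]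
  have h1 : ‖y - x‖⁻¹ * ‖y - x‖ ≤ 1 := inv_mul_le_one
  have := mul_le_mul_of_nonneg_left h1 (norm_nonneg (s - t))
  simpa using this

lemma seg_zero (x y : X) : seg x y 0 = x := by simp [seg]

lemma seg_end (x y : X) : seg x y ‖y - x‖ = y := by
  by_cases h : y = x
  · subst h; simp [seg]
  · have : ‖y - x‖ ≠ 0 := by simpa [sub_eq_zero] using h
    simp [seg, smul_smul, mul_inv_cancel₀ this]

variable {g : X → ℝ} {E : Set X}

lemma actions_nonneg (hg0 : ∀ x, 0 ≤ g x) {x : X} {a : ℝ} (ha : a ∈ actions g E x) : 0 ≤ a := by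
  obtain ⟨T, hT, c, -, -, -, rfl⟩ := ha
  exact intervalIntegral.integral_nonneg hT fun t _ => hg0 _

lemma actions_bddBelow (hg0 : ∀ x, 0 ≤ g x) (x : X) : BddBelow (actions g E x) :=
  ⟨0, fun _ ha => actions_nonneg hg0 ha⟩

lemma actions_nonempty (hE : E.Nonempty) (x : X) : (actions g E x).Nonempty := by
  obtain ⟨e, he⟩ := hE
  exact ⟨_, ‖x - e‖, norm_nonneg _, seg e x, seg_lipschitz _ _, by rwa [seg_zero], seg_end _ _, rfl⟩

lemma pot_nonneg (hg0 : ∀ x, 0 ≤ g x) (x : X) : 0 ≤ pot g E x :=
  Real.sInf_nonneg fun _ ha => actions_nonneg hg0 ha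

lemma pot_of_mem (hg0 : ∀ x, 0 ≤ g x) {x : X} (hx : x ∈ E) : pot g E x = 0 := by
  apply le_antisymm _ (pot_nonneg hg0 x)
  apply csInf_le (actions_bddBelow hg0 x)
  exact ⟨0, le_rfl, fun _ => x, LipschitzWith.const x |>.weaken (by simp), hx, rfl, by simp⟩

lemma le_pot (hE : E.Nonempty) {x : X} {m : ℝ}
    (h : ∀ T : ℝ, 0 ≤ T → ∀ c : ℝ → X, LipschitzWith 1 c → c 0 ∈ E → c T = x →
      m ≤ ∫ t in (0:ℝ)..T, g (c t)) : m ≤ pot g E x := by
  apply le_csInf (actions_nonempty hE x)
  rintro a ⟨T, hT, c, hc, h0, h1, rfl⟩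
  exact h T hT c hc h0 h1

lemma pot_le_add (hg : Continuous g) (hg0 : ∀ x, 0 ≤ g x) (hE : E.Nonempty)
    {d : ℝ → X} (hd : LipschitzWith 1 d) {S : ℝ} (hS : 0 ≤ S) :
    pot g E (d S) ≤ pot g E (d 0) + ∫ t in (0:ℝ)..S, g (d t) := by
  rw [← sub_le_iff_le_add]
  apply le_csInf (actions_nonempty hE _)
  rintro a ⟨T, hT, c, hc, h0, h1, rfl⟩
  rw [sub_le_iff_le_add]
  apply csInf_le (actions_bddBelow hg0 _)
  refine ⟨T + S, by positivity, concat T c d, concat_lipschitz T hc hd, ?_, ?_, ?_⟩
  · rwa [concat_of_le hT]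
  · rw [concat_of_ge h1 (by linarith)]; simp
  · rw [integral_concat hT hS hc hd h1 hg]

/-- The potential increment along a `1`-Lipschitz path, on a subinterval. -/
lemma pot_sub_le (hg : Continuous g) (hg0 : ∀ x, 0 ≤ g x) (hE : E.Nonempty)
    {d : ℝ → X} (hd : LipschitzWith 1 d) {s t : ℝ} (hst : s ≤ t) :
    |pot g E (d t) - pot g E (d s)| ≤ ∫ r in s..t, g (d r) := by
  rw [abs_le]
  constructor
  · -- reversed path
    have hd' : LipschitzWith 1 (fun r => d (t - r)) := by
      have h1 : LipschitzWith 1 (fun r : ℝ => t - r) := by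
        apply LipschitzWith.of_dist_le_mul
        intro x y
        rw [Real.dist_eq, Real.dist_eq, abs_sub_comm x y]
        simp
      have h2 := hd.comp h1
      rw [one_mul] at h2
      exact h2
    have := pot_le_add hg hg0 hE hd' (sub_nonneg.2 hst)
    have h2 : ∫ r in (0:ℝ)..(t - s), g (d (t - r)) = ∫ r in s..t, g (d r) := by
      rw [intervalIntegral.integral_comp_sub_left (fun r => g (d r)) t]
      simp
    simp only [sub_sub_cancel, sub_zero] at this
    rw [h2] at this
    linarith
  · have hd' : LipschitzWith 1 (fun r => d (s + r)) := by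
      have h1 : LipschitzWith 1 (fun r : ℝ => s + r) := by
        apply LipschitzWith.of_dist_le_mul
        intro x y
        simp [Real.dist_eq]
      have h2 := hd.comp h1
      rw [one_mul] at h2
      exact h2
    have := pot_le_add hg hg0 hE hd' (sub_nonneg.2 hst)
    have h2 : ∫ r in (0:ℝ)..(t - s), g (d (s + r)) = ∫ r in s..t, g (d r) := by
      rw [intervalIntegral.integral_comp_add_left (fun r => g (d r)) s]
      simp
    simp only [add_sub_cancel, add_zero] at this
    rw [h2] at this
    linarith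

lemma pot_lipschitz (hg : Continuous g) (hg0 : ∀ x, 0 ≤ g x) (hE : E.Nonempty)
    {M : ℝ≥0} (hM : ∀ x, g x ≤ M) : LipschitzWith M (pot g E) := by
  apply LipschitzWith.of_dist_le_mul
  intro x y
  have := pot_sub_le hg hg0 hE (seg_lipschitz y x) (norm_nonneg (x - y))
  rw [seg_end, seg_zero] at this
  rw [Real.dist_eq, dist_eq_norm]
  refine this.trans ?_
  have hcont : Continuous fun t => g (seg y x t) := hg.comp (seg_lipschitz y x).continuous
  calc ∫ r in (0:ℝ)..‖x - y‖, g (seg y x r) ≤ ∫ r in (0:ℝ)..‖x - y‖, (M:ℝ) :=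
        intervalIntegral.integral_mono_on (norm_nonneg _) (hcont.intervalIntegrable _ _)
          (by simp) fun t _ => hM _
    _ = M * ‖x - y‖ := by simp [mul_comm]

end Pool.Agent.helper25.Polar
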