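import Mathlib
import Pool.Agent.helper25.Polar.Potential

open MeasureTheory Set Filter Topology
open scoped ENNReal NNReal

set_option linter.unusedSectionVars false

namespace Pool.Agent.helper25.Polar

variable {X : Type*} [NormedAddCommGroup X] [NormedSpace ℝ X]
variable {g : X → ℝ} {E : Set X}

lemma pot_comp_near (hg : Continuous g) (hg0 : ∀ x, 0 ≤ g x) (hE : E.Nonempty)
    {d : ℝ → X} (hd : LipschitzWith 1 d) (t : ℝ) {ε : ℝ} (hε : 0 < ε) :
    ∀ᶠ s in 𝓝 t, |pot g E (d s) - pot g E (d t)| ≤ (g (d t) + ε) * |s - t| := by
  have hcont : Continuous fun r => g (d r) := hg.comp hd.continuous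
  obtain ⟨δ, hδ, hball⟩ := Metric.continuousAt_iff.1 (hcont.continuousAt (x := t)) ε hε
  filter_upwards [Metric.ball_mem_nhds t hδ] with s hs
  rw [Metric.mem_ball, Real.dist_eq] at hs
  have hb : ∀ r, |r - t| < δ → g (d r) ≤ g (d t) + ε := by
    intro r hr
    have := hball (x := r) (by rwa [Real.dist_eq])
    rw [Real.dist_eq] at this
    have := (abs_lt.1 this).2
    linarith
  rcases le_total t s with h | h
  · calc |pot g E (d s) - pot g E (d t)| ≤ ∫ r in t..s, g (d r) :=
          pot_sub_le hg hg0 hE hd h
      _ ≤ ∫ r in t..s, (g (d t) + ε) := by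
          apply intervalIntegral.integral_mono_on h (hcont.intervalIntegrable _ _) (by simp)
          intro r hr
          apply hb
          rw [abs_of_nonneg (by linarith [hr.1] : 0 ≤ r - t)]
          rw [abs_of_nonneg (by linarith : 0 ≤ s - t)] at hs
          linarith [hr.2]
      _ = (g (d t) + ε) * |s - t| := by
          rw [intervalIntegral.integral_const, smul_eq_mul, abs_of_nonneg (by linarith), mul_comm]
  · calc |pot g E (d s) - pot g E (d t)| = |pot g E (d t) - pot g E (d s)| := abs_sub_comm _ _
      _ ≤ ∫ r in s..t, g (d r) := pot_sub_le hg hg0 hE hd h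
      _ ≤ ∫ r in s..t, (g (d t) + ε) := by
          apply intervalIntegral.integral_mono_on h (hcont.intervalIntegrable _ _) (by simp)
          intro r hr
          apply hb
          rw [abs_of_nonpos (by linarith [hr.2] : r - t ≤ 0)]
          rw [abs_of_nonpos (by linarith : s - t ≤ 0)] at hs
          linarith [hr.1]
      _ = (g (d t) + ε) * |s - t| := by
          rw [intervalIntegral.integral_const, smul_eq_mul, abs_of_nonpos (by linarith), mul_comm]
          ring

lemma abs_deriv_pot_le (hg : Continuous g) (hg0 : ∀ x, 0 ≤ g x) (hE : E.Nonempty)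
    {d : ℝ → X} (hd : LipschitzWith 1 d) {t A' : ℝ}
    (hA : HasDerivAt (fun s => pot g E (d s)) A' t) : |A'| ≤ g (d t) := by
  apply le_of_forall_pos_le_add
  intro ε hε
  have := hA.le_of_lip' (C := g (d t) + ε) (by linarith [hg0 (d t)])
    (by simpa [Real.norm_eq_abs] using pot_comp_near hg hg0 hE hd t hε)
  simpa using this

/-- Lipschitz functions satisfy the fundamental theorem of calculus. -/
lemma lipschitz_ftc {V : ℝ → ℝ} {K : ℝ≥0} (hV : LipschitzWith K V) (T : ℝ) :
    ∫ t in (0:ℝ)..T, deriv V t = V T - V 0 := by
  have : AbsolutelyContinuousOnInterval V 0 T :=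
    (hV.lipschitzOnWith (s := uIcc 0 T)).absolutelyContinuousOnInterval
  exact this.integral_deriv_eq_sub

lemma lipschitz_deriv_intervalIntegrable {V : ℝ → ℝ} {K : ℝ≥0} (hV : LipschitzWith K V) (T : ℝ) :
    IntervalIntegrable (deriv V) volume 0 T := by
  have : AbsolutelyContinuousOnInterval V 0 T :=
    (hV.lipschitzOnWith (s := uIcc 0 T)).absolutelyContinuousOnInterval
  exact this.intervalIntegrable_deriv

section polarize

variable {r : X → X} {l : X → ℝ}
variable [MeasurableSpace X] [BorelSpace X]

/-- The set on which the polarized metric coincides with the original one. -/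
def keepSet (r : X → X) (l u : X → ℝ) : Set X := {x | 0 ≤ l x * (u (r x) - u x)}

open Classical in
/-- The polarized metric. -/
noncomputable def polMetric (g : X → ℝ) (r : X → X) (l u : X → ℝ) (x : X) : ℝ :=
  if x ∈ keepSet r l u then g x else g (r x)

/-- The two-sided min/max function along a path. -/
noncomputable def mm (lc A B : ℝ → ℝ) (t : ℝ) : ℝ :=
  if 0 ≤ lc t then min (A t) (B t) else max (A t) (B t)

lemma mm_eq_or (lc A B : ℝ → ℝ) (t : ℝ) : mm lc A B t = A t ∨ mm lc A B t = B t := by
  unfold mm
  split_ifs
  · rcases min_choice (A t) (B t) with h | h <;> simp [h]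
  · rcases max_choice (A t) (B t) with h | h <;> simp [h]

lemma mm_lipschitz {lc A B : ℝ → ℝ} {M : ℝ≥0} (hlc : Continuous lc)
    (hA : LipschitzWith M A) (hB : LipschitzWith M B) (h0 : ∀ t, lc t = 0 → A t = B t) :
    LipschitzWith M (mm lc A B) := by
  have hmin := hA.min hB
  have hmax := hA.max hB
  rw [max_self] at hmin hmax
  apply LipschitzWith.of_dist_le_mul
  intro s t
  by_cases hs : 0 ≤ lc s <;> by_cases ht : 0 ≤ lc t
  · simpa [mm, hs, ht] using hmin.dist_le_mul s t
  · obtain ⟨z, hz, hz0⟩ : ∃ z ∈ uIcc s t, lc z = 0 := by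
      have := intermediate_value_uIcc (a := s) (b := t) hlc.continuousOn
      have h0mem : (0:ℝ) ∈ uIcc (lc s) (lc t) := by
        rw [mem_uIcc]; right; exact ⟨(not_le.1 ht).le, hs⟩
      obtain ⟨z, hz, hz0⟩ := this h0mem
      exact ⟨z, hz, hz0⟩
    have e1 : mm lc A B s = min (A s) (B s) := by simp [mm, hs]
    have e2 : mm lc A B t = max (A t) (B t) := by simp [mm, ht]
    have e3 : min (A z) (B z) = max (A z) (B z) := by rw [h0 z hz0]; simp
    calc dist (mm lc A B s) (mm lc A B t)
        ≤ dist (min (A s) (B s)) (min (A z) (B z)) + dist (max (A z) (B z)) (max (A t) (B t)) := by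
          rw [e1, e2, ← e3]; exact dist_triangle _ _ _
      _ ≤ M * dist s z + M * dist z t := add_le_add (hmin.dist_le_mul _ _) (hmax.dist_le_mul _ _)
      _ = M * dist s t := by
          rw [← mul_add]; congr 1
          rw [Real.dist_eq, Real.dist_eq, Real.dist_eq]
          rcases mem_uIcc.1 hz with ⟨h1, h2⟩ | ⟨h1, h2⟩
          · rw [abs_of_nonpos (by linarith), abs_of_nonpos (by linarith),
              abs_of_nonpos (by linarith)]; ring
          · rw [abs_of_nonneg (by linarith), abs_of_nonneg (by linarith),
              abs_of_nonneg (by linarith)]; ring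
  · obtain ⟨z, hz, hz0⟩ : ∃ z ∈ uIcc s t, lc z = 0 := by
      have := intermediate_value_uIcc (a := s) (b := t) hlc.continuousOn
      have h0mem : (0:ℝ) ∈ uIcc (lc s) (lc t) := by
        rw [mem_uIcc]; left; exact ⟨(not_le.1 hs).le, ht⟩
      obtain ⟨z, hz, hz0⟩ := this h0mem
      exact ⟨z, hz, hz0⟩
    have e1 : mm lc A B s = max (A s) (B s) := by simp [mm, hs]
    have e2 : mm lc A B t = min (A t) (B t) := by simp [mm, ht]
    have e3 : min (A z) (B z) = max (A z) (B z) := by rw [h0 z hz0]; simp
    calc dist (mm lc A B s) (mm lc A B t)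
        ≤ dist (max (A s) (B s)) (max (A z) (B z)) + dist (min (A z) (B z)) (min (A t) (B t)) := by
          rw [e1, e2, ← e3]; exact dist_triangle _ _ _
      _ ≤ M * dist s z + M * dist z t := add_le_add (hmax.dist_le_mul _ _) (hmin.dist_le_mul _ _)
      _ = M * dist s t := by
          rw [← mul_add]; congr 1
          rw [Real.dist_eq, Real.dist_eq, Real.dist_eq]
          rcases mem_uIcc.1 hz with ⟨h1, h2⟩ | ⟨h1, h2⟩
          · rw [abs_of_nonpos (by linarith), abs_of_nonpos (by linarith),
              abs_of_nonpos (by linarith)]; ring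
          · rw [abs_of_nonneg (by linarith), abs_of_nonneg (by linarith),
              abs_of_nonneg (by linarith)]; ring
  · simpa [mm, hs, ht] using hmax.dist_le_mul s t

/-- At a point where `A = B` and `|A - B|` is differentiable, the derivatives agree. -/
lemma deriv_eq_of_abs_sub {A B : ℝ → ℝ} {a b t : ℝ} (hA : HasDerivAt A a t)
    (hB : HasDerivAt B b t) (hAB : A t = B t)
    (hD : DifferentiableAt ℝ (fun s => |A s - B s|) t) : a = b := by
  have hmin : IsLocalMin (fun s => |A s - B s|) t := by
    filter_upwards with s
    simp [hAB]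
  have h0 : deriv (fun s => |A s - B s|) t = 0 := hmin.deriv_eq_zero
  have hD' : HasDerivAt (fun s => |A s - B s|) 0 t := h0 ▸ hD.hasDerivAt
  have hsub : HasDerivAt (fun s => A s - B s) (a - b) t := hA.sub hB
  have hsub0 : HasDerivAt (fun s => A s - B s) 0 t := by
    rw [hasDerivAt_iff_isLittleO] at hD' ⊢
    simp only [hAB, sub_self, abs_zero, sub_zero, smul_zero] at hD' ⊢
    exact Asymptotics.isLittleO_abs_left.1 hD'
  have := hsub.unique hsub0
  linarith

/-- The derivative of the min/max function at a point where `A = B` and derivatives agree. -/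
lemma mm_hasDerivAt_of_eq {lc A B : ℝ → ℝ} {a t : ℝ} (hA : HasDerivAt A a t)
    (hB : HasDerivAt B a t) (hAB : A t = B t) : HasDerivAt (mm lc A B) a t := by
  have hmt : mm lc A B t = A t := by
    rcases mm_eq_or lc A B t with h | h
    · exact h
    · rw [h, hAB]
  rw [hasDerivAt_iff_isLittleO] at hA hB ⊢
  rw [Asymptotics.isLittleO_iff] at hA hB ⊢
  intro c hc
  filter_upwards [hA hc, hB hc] with s h1 h2
  rcases mm_eq_or lc A B s with h | h
  · rw [h, hmt]; exact h1
  · rw [h, hmt, hAB]; exact h2

/-- The main estimate: along a `1`-Lipschitz path from `E` to the reflected set the polarized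
metric has action at least `m`. -/
theorem polarized_action (hg : Continuous g) (hg0 : ∀ x, 0 ≤ g x) {M : ℝ≥0}
    (hM : ∀ x, g x ≤ M) (hr : LipschitzWith 1 r)
    (hl : Continuous l) (hfix : ∀ x, l x = 0 → r x = x)
    {m : ℝ} {c : ℝ → X} (hc : LipschitzWith 1 c) {T : ℝ} (hT : 0 ≤ T)
    (h0 : c 0 ∈ E) (hl0 : 0 < l (c 0)) (hlT : l (c T) < 0) (hm : m ≤ pot g E (r (c T))) :
    m ≤ ∫ t in (0:ℝ)..T, polMetric g r l (pot g E) (c t) := by
  have hE : E.Nonempty := ⟨_, h0⟩
  set u := pot g E with hu
  have hrc : LipschitzWith 1 (fun t => r (c t)) := by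
    have := hr.comp hc
    rwa [one_mul] at this
  have huL : LipschitzWith M u := pot_lipschitz hg hg0 hE hM
  set A : ℝ → ℝ := fun t => u (c t) with hAdef
  set B : ℝ → ℝ := fun t => u (r (c t)) with hBdef
  set lc : ℝ → ℝ := fun t => l (c t) with hlcdef
  have hAL : LipschitzWith M A := by
    have := huL.comp hc
    rw [mul_one] at this
    exact this
  have hBL : LipschitzWith M B := by
    have := huL.comp hrc
    rw [mul_one] at this
    exact this
  have hlc : Continuous lc := hl.comp hc.continuous
  have hAB0 : ∀ t, lc t = 0 → A t = B t := by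
    intro t ht
    simp only [hAdef, hBdef]
    rw [hfix _ ht]
  set V := mm lc A B with hV
  have hVL : LipschitzWith M V := mm_lipschitz hlc hAL hBL hAB0
  have hV0 : V 0 = 0 := by
    have : V 0 = min (A 0) (B 0) := by simp [hV, mm, hlcdef, hl0.le]
    rw [this]
    have hA0 : A 0 = 0 := pot_of_mem hg0 h0
    rw [hA0]
    exact min_eq_left (pot_nonneg hg0 _)
  have hVT : m ≤ V T := by
    have : V T = max (A T) (B T) := by simp [hV, mm, hlcdef, not_le.2 hlT]
    rw [this]
    exact le_max_of_le_right hm
  have hftc := lipschitz_ftc hVL T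
  have hgr : Continuous fun x => g (r x) := hg.comp hr.continuous
  have huc : Continuous u := huL.continuous
  have hurc : Continuous fun x => u (r x) := huc.comp hr.continuous
  have hkeep : IsClosed (keepSet r l u) := isClosed_le continuous_const (hl.mul (hurc.sub huc))
  have hpm : Measurable (polMetric g r l u) := by
    unfold polMetric
    exact Measurable.ite hkeep.measurableSet hg.measurable hgr.measurable
  have hpb : ∀ x, |polMetric g r l u x| ≤ M := by
    intro x
    unfold polMetric
    split_ifs
    · rw [abs_of_nonneg (hg0 _)]; exact hM _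
    · rw [abs_of_nonneg (hg0 _)]; exact hM _
  have hint : IntervalIntegrable (fun t => polMetric g r l u (c t)) volume 0 T := by
    rw [intervalIntegrable_iff]
    apply Measure.integrableOn_of_bounded (M := (M:ℝ))
    · simp [uIoc]
    · exact (hpm.comp hc.continuous.measurable).aestronglyMeasurable
    · filter_upwards with t
      exact hpb _
  -- a.e. derivative bound
  have hae : ∀ᵐ t : ℝ, deriv V t ≤ polMetric g r l u (c t) := by
    have hDL : LipschitzWith (M + M) (fun s => |A s - B s|) := by
      have h1 := hAL.sub hBL
      have h2 : LipschitzWith 1 (fun x : ℝ => |x|) := lipschitzWith_one_norm (E := ℝ)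
      have h3 := h2.comp h1
      rw [one_mul] at h3
      exact h3
    filter_upwards [hAL.ae_differentiableAt, hBL.ae_differentiableAt, hDL.ae_differentiableAt]
      with t hAt hBt hDt
    have hA' := hAt.hasDerivAt
    have hB' := hBt.hasDerivAt
    have hAb : |deriv A t| ≤ g (c t) := abs_deriv_pot_le hg hg0 hE hc hA'
    have hBb : |deriv B t| ≤ g (r (c t)) := abs_deriv_pot_le hg hg0 hE hrc hB'
    by_cases hABt : A t = B t
    · have hd := deriv_eq_of_abs_sub hA' hB' hABt hDt
      have hVd : HasDerivAt V (deriv A t) t := mm_hasDerivAt_of_eq hA' (by rw [hd]; exact hB') hABt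
      rw [hVd.deriv]
      have hk : c t ∈ keepSet r l u := by
        have : u (r (c t)) - u (c t) = 0 := by
          have : A t = B t := hABt
          simp only [hAdef, hBdef] at this
          linarith
        simp [keepSet, this]
      rw [polMetric, if_pos hk]
      exact (le_abs_self _).trans hAb
    · have hlne : lc t ≠ 0 := fun h => hABt (hAB0 t h)
      have hAc : Continuous A := hAL.continuous
      have hBc : Continuous B := hBL.continuous
      rcases lt_or_gt_of_ne hlne with hl1 | hl1
      · -- lower half: V = max
        rcases lt_or_gt_of_ne hABt with hab | hab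
        · -- A < B, V = B near t
          have hev : V =ᶠ[𝓝 t] B := by
            filter_upwards [hlc.continuousAt.eventually_lt continuousAt_const hl1,
              hAc.continuousAt.eventually_lt hBc.continuousAt hab] with s h1 h2
            simp [hV, mm, not_le.2 h1, max_eq_right h2.le]
          rw [hev.deriv_eq]
          have hk : c t ∉ keepSet r l u := by
            simp only [keepSet, mem_ofPred_eq, not_le]
            apply mul_neg_of_neg_of_pos hl1
            simp only [hAdef, hBdef] at hab
            linarith
          rw [polMetric, if_neg hk]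
          exact (le_abs_self _).trans hBb
        · have hev : V =ᶠ[𝓝 t] A := by
            filter_upwards [hlc.continuousAt.eventually_lt continuousAt_const hl1,
              hBc.continuousAt.eventually_lt hAc.continuousAt hab] with s h1 h2
            simp [hV, mm, not_le.2 h1, max_eq_left h2.le]
          rw [hev.deriv_eq]
          have hk : c t ∈ keepSet r l u := by
            simp only [keepSet, mem_ofPred_eq]
            apply mul_nonneg_of_nonpos_of_nonpos hl1.le
            simp only [hAdef, hBdef] at hab
            linarith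
          rw [polMetric, if_pos hk]
          exact (le_abs_self _).trans hAb
      · rcases lt_or_gt_of_ne hABt with hab | hab
        · have hev : V =ᶠ[𝓝 t] A := by
            filter_upwards [continuousAt_const.eventually_lt hlc.continuousAt hl1,
              hAc.continuousAt.eventually_lt hBc.continuousAt hab] with s h1 h2
            simp [hV, mm, h1.le, min_eq_left h2.le]
          rw [hev.deriv_eq]
          have hk : c t ∈ keepSet r l u := by
            simp only [keepSet, mem_ofPred_eq]
            apply mul_nonneg (le_of_lt hl1)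
            simp only [hAdef, hBdef] at hab
            linarith
          rw [polMetric, if_pos hk]
          exact (le_abs_self _).trans hAb
        · have hev : V =ᶠ[𝓝 t] B := by
            filter_upwards [continuousAt_const.eventually_lt hlc.continuousAt hl1,
              hBc.continuousAt.eventually_lt hAc.continuousAt hab] with s h1 h2
            simp [hV, mm, h1.le, min_eq_right h2.le]
          rw [hev.deriv_eq]
          have hk : c t ∉ keepSet r l u := by
            simp only [keepSet, mem_ofPred_eq, not_le]
            apply mul_neg_of_pos_of_neg hl1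
            simp only [hAdef, hBdef] at hab
            linarith
          rw [polMetric, if_neg hk]
          exact (le_abs_self _).trans hBb
  calc m ≤ V T - V 0 := by rw [hV0]; linarith
    _ = ∫ t in (0:ℝ)..T, deriv V t := hftc.symm
    _ ≤ ∫ t in (0:ℝ)..T, polMetric g r l u (c t) :=
        intervalIntegral.integral_mono_ae hT (lipschitz_deriv_intervalIntegrable hVL T) hint hae

/-- Polarization preserves the energy. -/
theorem lintegral_polMetric {μ : Measure X} {u : X → ℝ} (hu : Continuous u) (hg : Continuous g)
    (hr : Continuous r) (hrμ : MeasurePreserving r μ μ) (hrr : ∀ x, r (r x) = x)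
    (hl : Continuous l) (hlr : ∀ x, l (r x) = - l x) {φ : ℝ → ℝ≥0∞} (hφ : Measurable φ) :
    ∫⁻ x, φ (polMetric g r l u x) ∂μ = ∫⁻ x, φ (g x) ∂μ := by
  have hkeep : IsClosed (keepSet r l u) :=
    isClosed_le continuous_const (hl.mul ((hu.comp hr).sub hu))
  have hinv : r ⁻¹' (keepSet r l u)ᶜ = (keepSet r l u)ᶜ := by
    ext x
    simp only [mem_preimage, mem_compl_iff, keepSet, mem_ofPred_eq, hrr, hlr]
    have : -l x * (u x - u (r x)) = l x * (u (r x) - u x) := by ring
    rw [this]
  rw [← lintegral_add_compl _ hkeep.measurableSet, ← lintegral_add_compl (fun x => φ (g x))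
    hkeep.measurableSet]
  congr 1
  · apply setLIntegral_congr_fun hkeep.measurableSet
    intro x hx
    simp only [polMetric, if_pos hx]
  · have h1 : ∫⁻ x in (keepSet r l u)ᶜ, φ (polMetric g r l u x) ∂μ =
        ∫⁻ x in (keepSet r l u)ᶜ, φ (g (r x)) ∂μ := by
      apply setLIntegral_congr_fun hkeep.measurableSet.compl
      intro x hx
      simp only [polMetric, if_neg (show x ∉ keepSet r l u from hx)]
    rw [h1]
    have h2 := hrμ.setLIntegral_comp_preimage hkeep.measurableSet.compl
      (f := fun x => φ (g x)) (hφ.comp hg.measurable)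
    rw [hinv] at h2
    exact h2

end polarize

end Pool.Agent.helper25.Polar
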