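import Mathlib
import Pool.Agent.helper25.Polar.Polarize

open MeasureTheory Set Filter Topology
open scoped ENNReal NNReal

set_option linter.unusedSectionVars false

namespace Pool.Agent.helper25.Polar

/-- The radial profile of the barrier. -/
noncomputable def psi (r : ℝ) : ℝ := ((1 + r) * (1 + Real.log (1 + r)))⁻¹

/-- The primitive of the radial profile. -/
noncomputable def Psi (r : ℝ) : ℝ := Real.log (1 + Real.log (1 + r))

lemma log_one_add_nonneg {r : ℝ} (hr : 0 ≤ r) : 0 ≤ Real.log (1 + r) :=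
  Real.log_nonneg (by linarith)

lemma psi_pos {r : ℝ} (hr : 0 ≤ r) : 0 < psi r := by
  unfold psi
  have := log_one_add_nonneg hr
  positivity

lemma psi_le_one {r : ℝ} (hr : 0 ≤ r) : psi r ≤ 1 := by
  unfold psi
  have h := log_one_add_nonneg hr
  apply inv_le_one_of_one_le₀
  nlinarith

lemma Psi_hasDerivAt {r : ℝ} (hr : 0 ≤ r) : HasDerivAt Psi (psi r) r := by
  have h := log_one_add_nonneg hr
  have h1 : HasDerivAt (fun r : ℝ => 1 + r) 1 r := (hasDerivAt_id r).const_add 1
  have h2 : HasDerivAt (fun r : ℝ => Real.log (1 + r)) (1 / (1 + r)) r := h1.log (by linarith)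
  have h3 : HasDerivAt (fun r : ℝ => 1 + Real.log (1 + r)) (1 / (1 + r)) r := h2.const_add 1
  have h4 : HasDerivAt Psi _ r := h3.log (by linarith)
  convert h4 using 1
  unfold psi
  have : 1 + r ≠ 0 := by linarith
  have : 1 + Real.log (1 + r) ≠ 0 := by linarith
  field_simp

lemma Psi_lipschitzOn : LipschitzOnWith 1 Psi (Ici 0) := by
  apply Convex.lipschitzOnWith_of_nnnorm_hasDerivWithin_le (f' := psi) (convex_Ici 0)
  · intro x hx
    exact (Psi_hasDerivAt hx).hasDerivWithinAt
  · intro x hx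
    rw [← NNReal.coe_le_coe, coe_nnnorm, Real.norm_of_nonneg (psi_pos hx).le]
    exact psi_le_one hx

lemma Psi_tendsto : Tendsto Psi atTop atTop := by
  unfold Psi
  apply Real.tendsto_log_atTop.comp
  apply tendsto_atTop_add_const_left
  apply Real.tendsto_log_atTop.comp
  exact tendsto_atTop_add_const_left _ _ tendsto_id

lemma Psi_strictMonoOn : StrictMonoOn Psi (Ici 0) := by
  intro x hx y hy hxy
  unfold Psi
  have h1 := log_one_add_nonneg (show (0:ℝ) ≤ x from hx)
  have hx' : (0:ℝ) ≤ x := hx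
  apply Real.log_lt_log (by linarith)
  have : Real.log (1 + x) < Real.log (1 + y) := Real.log_lt_log (by linarith) (by linarith)
  linarith

lemma psi_continuousOn : ContinuousOn psi (Ici 0) := by
  unfold psi
  apply ContinuousOn.inv₀
  · apply ContinuousOn.mul (by fun_prop)
    apply ContinuousOn.add continuousOn_const
    apply ContinuousOn.log (by fun_prop)
    intro x hx
    have : (0:ℝ) ≤ x := hx
    linarith
  · intro x hx
    have hx' : (0:ℝ) ≤ x := hx
    have h := log_one_add_nonneg hx'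
    positivity

lemma psi_antitoneOn : AntitoneOn psi (Ici 0) := by
  intro x hx y hy hxy
  have hx' : (0:ℝ) ≤ x := hx
  have hy' : (0:ℝ) ≤ y := hy
  unfold psi
  have h1 := log_one_add_nonneg hx'
  have h2 := log_one_add_nonneg hy'
  have h3 : Real.log (1 + x) ≤ Real.log (1 + y) := Real.log_le_log (by linarith) (by linarith)
  apply inv_anti₀ (by positivity)
  gcongr

variable {X : Type*} [NormedAddCommGroup X] [NormedSpace ℝ X]

/-- The barrier function. -/
noncomputable def bar (x : X) : ℝ := psi ‖x‖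

lemma bar_pos (x : X) : 0 < bar x := psi_pos (norm_nonneg x)

lemma bar_le_one (x : X) : bar x ≤ 1 := psi_le_one (norm_nonneg x)

lemma bar_continuous : Continuous (bar : X → ℝ) := by
  unfold bar
  exact psi_continuousOn.comp_continuous continuous_norm fun x => norm_nonneg x

lemma bar_action {c : ℝ → X} (hc : LipschitzWith 1 c) {T : ℝ} (hT : 0 ≤ T) :
    Psi ‖c T‖ - Psi ‖c 0‖ ≤ ∫ t in (0:ℝ)..T, bar (c t) := by
  have hn : LipschitzWith 1 (fun t => ‖c t‖) := by
    have := (lipschitzWith_one_norm (E := X)).comp hc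
    rw [one_mul] at this
    exact this
  have hf : LipschitzWith 1 (fun t => Psi ‖c t‖) := by
    have h1 := Psi_lipschitzOn.comp (hn.lipschitzOnWith (s := univ))
      (fun t _ => norm_nonneg (c t))
    rw [one_mul, lipschitzOnWith_univ] at h1
    exact h1
  have hbc : Continuous fun t => bar (c t) := bar_continuous.comp hc.continuous
  have hae : ∀ᵐ t : ℝ, deriv (fun t => Psi ‖c t‖) t ≤ bar (c t) := by
    filter_upwards [hf.ae_differentiableAt] with t ht
    apply le_of_forall_pos_le_add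
    intro ε hε
    have hd := ht.hasDerivAt
    refine (le_abs_self _).trans ?_
    have key : ∀ᶠ s in 𝓝 t, ‖Psi ‖c s‖ - Psi ‖c t‖‖ ≤ (bar (c t) + ε) * ‖s - t‖ := by
      have h1 := Psi_hasDerivAt (norm_nonneg (c t))
      rw [hasDerivAt_iff_isLittleO, Asymptotics.isLittleO_iff] at h1
      have h2 := hn.continuous.continuousAt (x := t) |>.eventually (h1 hε)
      filter_upwards [h2] with s hs
      have h3 : |‖c s‖ - ‖c t‖| ≤ |s - t| := by
        have := hn.dist_le_mul s t
        simpa [Real.dist_eq] using this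
      simp only [Real.norm_eq_abs, smul_eq_mul] at hs ⊢
      have h4 : |Psi ‖c s‖ - Psi ‖c t‖| ≤ |Psi ‖c s‖ - Psi ‖c t‖ - (‖c s‖ - ‖c t‖) * psi ‖c t‖| +
          |(‖c s‖ - ‖c t‖) * psi ‖c t‖| := by
        have := abs_add_le (Psi ‖c s‖ - Psi ‖c t‖ - (‖c s‖ - ‖c t‖) * psi ‖c t‖)
          ((‖c s‖ - ‖c t‖) * psi ‖c t‖)
        simpa using this
      have h5 : |(‖c s‖ - ‖c t‖) * psi ‖c t‖| = |‖c s‖ - ‖c t‖| * psi ‖c t‖ := by
        rw [abs_mul, abs_of_pos (psi_pos (norm_nonneg _))]
      rw [h5] at h4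
      have h6 := (psi_pos (norm_nonneg (c t))).le
      have h7 : |‖c s‖ - ‖c t‖| * psi ‖c t‖ ≤ |s - t| * psi ‖c t‖ := by gcongr
      have h8 : ε * |‖c s‖ - ‖c t‖| ≤ ε * |s - t| := by gcongr
      have h9 : bar (c t) = psi ‖c t‖ := rfl
      rw [h9, add_mul]
      linarith
    have := hd.le_of_lip' (C := bar (c t) + ε) (by linarith [bar_pos (c t)]) key
    simpa using this
  calc Psi ‖c T‖ - Psi ‖c 0‖ = ∫ t in (0:ℝ)..T, deriv (fun t => Psi ‖c t‖) t :=
        (lipschitz_ftc hf T).symm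
    _ ≤ ∫ t in (0:ℝ)..T, bar (c t) :=
        intervalIntegral.integral_mono_ae hT (lipschitz_deriv_intervalIntegrable hf T)
          (hbc.intervalIntegrable _ _) hae

lemma integrableOn_psi_sq :
    IntegrableOn (fun y : ℝ => ((1 + y) * (1 + Real.log (1 + y)) ^ 2)⁻¹) (Ioi 0) := by
  have hd : ∀ x ∈ Ici (0:ℝ), HasDerivAt (fun y : ℝ => - (1 + Real.log (1 + y))⁻¹)
      (((1 + x) * (1 + Real.log (1 + x)) ^ 2)⁻¹) x := by
    intro x hx
    have hx' : (0:ℝ) ≤ x := hx
    have h := log_one_add_nonneg hx'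
    have h1 : HasDerivAt (fun r : ℝ => 1 + r) 1 x := (hasDerivAt_id x).const_add 1
    have h2 : HasDerivAt (fun r : ℝ => Real.log (1 + r)) (1 / (1 + x)) x := h1.log (by linarith)
    have h3 : HasDerivAt (fun r : ℝ => 1 + Real.log (1 + r)) (1 / (1 + x)) x := h2.const_add 1
    have h4 : HasDerivAt (fun y : ℝ => - (1 + Real.log (1 + y))⁻¹) _ x := (h3.inv (by linarith)).neg
    convert h4 using 1
    have : 1 + x ≠ 0 := by linarith
    have : 1 + Real.log (1 + x) ≠ 0 := by linarith
    field_simp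
  apply integrableOn_Ioi_deriv_of_nonneg (g := fun y : ℝ => - (1 + Real.log (1 + y))⁻¹) (l := 0)
  · exact (hd 0 (by simp)).continuousAt.continuousWithinAt
  · intro x hx
    exact hd x (mem_Ici.2 (le_of_lt hx))
  · intro x hx
    have hx' : (0:ℝ) < x := hx
    have h := log_one_add_nonneg hx'.le
    positivity
  · rw [← neg_zero]
    apply Tendsto.neg
    apply tendsto_inv_atTop_zero.comp
    apply tendsto_atTop_add_const_left
    apply Real.tendsto_log_atTop.comp
    exact tendsto_atTop_add_const_left _ _ tendsto_id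

lemma integrable_bar_pow {n : ℕ} (hn : 2 ≤ n) :
    Integrable (fun x : EuclideanSpace ℝ (Fin n) => (bar x) ^ n) volume := by
  have : Nontrivial (EuclideanSpace ℝ (Fin n)) := by
    have : Nonempty (Fin n) := ⟨⟨0, by omega⟩⟩
    infer_instance
  have key := (integrable_fun_norm_addHaar (volume : Measure (EuclideanSpace ℝ (Fin n)))
    (f := fun r : ℝ => psi r ^ n)).2
  apply key
  rw [finrank_euclideanSpace_fin]
  apply Integrable.mono' integrableOn_psi_sq
  · apply ContinuousOn.aestronglyMeasurable _ measurableSet_Ioi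
    simp only [smul_eq_mul]
    have h1 : ContinuousOn (fun y : ℝ => y ^ (n - 1)) (Ioi 0) := by fun_prop
    exact h1.mul ((psi_continuousOn.mono Ioi_subset_Ici_self).pow n)
  · filter_upwards [ae_restrict_mem measurableSet_Ioi] with y hy
    have hy' : (0:ℝ) < y := hy
    have h := log_one_add_nonneg hy'.le
    rw [norm_smul, Real.norm_of_nonneg (by positivity), Real.norm_of_nonneg
      (pow_nonneg (psi_pos hy'.le).le _)]
    unfold psi
    obtain ⟨k, rfl⟩ : ∃ k, n = k + 2 := ⟨n - 2, by omega⟩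
    have e1 : k + 2 - 1 = k + 1 := by omega
    rw [e1]
    set L := 1 + Real.log (1 + y) with hL
    have hL1 : 1 ≤ L := by linarith
    have hL0 : 0 < L := by linarith
    have e2 : ((1 + y) * L)⁻¹ ^ (k + 2) =
        ((1 + y) ^ (k + 1))⁻¹ * ((1 + y) * L ^ 2)⁻¹ * (L ^ k)⁻¹ := by
      rw [inv_pow, ← mul_inv, ← mul_inv]
      congr 1
      rw [mul_pow]
      ring
    rw [e2]
    have h1 : y ^ (k + 1) * ((1 + y) ^ (k + 1))⁻¹ ≤ 1 := by
      rw [← div_eq_mul_inv, div_le_one (by positivity)]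
      gcongr
      linarith
    have h2 : (L ^ k)⁻¹ ≤ 1 := inv_le_one_of_one_le₀ (one_le_pow₀ hL1)
    have h3 : 0 ≤ ((1 + y) * L ^ 2)⁻¹ := by positivity
    calc y ^ (k + 1) * (((1 + y) ^ (k + 1))⁻¹ * ((1 + y) * L ^ 2)⁻¹ * (L ^ k)⁻¹)
        = (y ^ (k + 1) * ((1 + y) ^ (k + 1))⁻¹) * ((1 + y) * L ^ 2)⁻¹ * (L ^ k)⁻¹ := by ring
      _ ≤ 1 * ((1 + y) * L ^ 2)⁻¹ * 1 := by gcongr
      _ = ((1 + y) * L ^ 2)⁻¹ := by ring

end Pool.Agent.helper25.Polar
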