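import Mathlib

open MeasureTheory Set Filter Topology
open scoped ENNReal NNReal

set_option linter.unusedSectionVars false

namespace Pool.Agent.helper25.Polar

variable {X : Type*} [NormedAddCommGroup X] [NormedSpace ℝ X]

theorem exists_limit_path [ProperSpace X] {R M : ℝ} (T : ℕ → ℝ) (hT0 : ∀ k, 0 ≤ T k)
    (hTM : ∀ k, T k ≤ M) (c : ℕ → ℝ → X) (hc : ∀ k, LipschitzWith 1 (c k))
    (hR : ∀ k, ∀ t ∈ Icc 0 (T k), ‖c k t‖ ≤ R) :
    ∃ φ : ℕ → ℕ, StrictMono φ ∧ ∃ Tl : ℝ, 0 ≤ Tl ∧ Tendsto (fun k => T (φ k)) atTop (𝓝 Tl) ∧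
      ∃ cl : ℝ → X, LipschitzWith 1 cl ∧ Tendsto (fun k => c (φ k) 0) atTop (𝓝 (cl 0)) ∧
        Tendsto (fun k => c (φ k) (T (φ k))) atTop (𝓝 (cl Tl)) ∧
        ∀ t ∈ Ico 0 Tl, Tendsto (fun k => c (φ k) t) atTop (𝓝 (cl t)) := by
  have hM : 0 ≤ M := (hT0 0).trans (hTM 0)
  let I := Icc (0:ℝ) M
  have hci : ∀ k, LipschitzWith 1 (fun t : I => c k (projIcc 0 (T k) (hT0 k) (t:ℝ))) := by
    intro k
    have h1 : LipschitzWith 1 (fun t : ℝ => ((projIcc 0 (T k) (hT0 k) t : Icc 0 (T k)) : ℝ)) := by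
      have h0 := (LipschitzWith.subtype_val (Icc 0 (T k))).comp (LipschitzWith.projIcc (hT0 k))
      rw [one_mul] at h0
      exact h0
    have h2 := ((hc k).comp h1).comp (LipschitzWith.subtype_val I)
    rw [one_mul, one_mul] at h2
    exact h2
  let f : ℕ → BoundedContinuousFunction I X := fun k =>
    BoundedContinuousFunction.mkOfCompact ⟨_, (hci k).continuous⟩
  let A : Set (BoundedContinuousFunction I X) := {g | LipschitzWith 1 g ∧ ∀ x, g x ∈ Metric.closedBall (0:X) R}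
  have hfA : ∀ k, f k ∈ A := by
    intro k
    refine ⟨hci k, fun x => ?_⟩
    rw [mem_closedBall_zero_iff]
    exact hR k _ (projIcc 0 (T k) (hT0 k) (x:ℝ)).2
  have hev : ∀ x : I, Continuous fun g : BoundedContinuousFunction I X => g x := fun x =>
    (BoundedContinuousFunction.lipschitz_eval_const x).continuous
  have hAclosed : IsClosed A := by
    have h1 : A = (⋂ x : I, ⋂ y : I, {g : BoundedContinuousFunction I X | dist (g x) (g y) ≤ dist x y}) ∩
        ⋂ x : I, {g : BoundedContinuousFunction I X | g x ∈ Metric.closedBall (0:X) R} := by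
      ext g
      constructor
      · rintro ⟨h1, h2⟩
        refine ⟨?_, ?_⟩
        · simp only [mem_iInter, mem_ofPred_eq]
          intro x y
          simpa using h1.dist_le_mul x y
        · simpa only [mem_iInter, mem_ofPred_eq] using h2
      · rintro ⟨h1, h2⟩
        simp only [mem_iInter, mem_ofPred_eq] at h1 h2
        exact ⟨LipschitzWith.of_dist_le_mul fun x y => by simpa using h1 x y, h2⟩
    rw [h1]
    apply IsClosed.inter
    · apply isClosed_iInter; intro x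
      apply isClosed_iInter; intro y
      apply isClosed_le _ continuous_const
      exact (hev x).dist (hev y)
    · apply isClosed_iInter; intro x
      exact Metric.isClosed_closedBall.preimage (hev x)
  have hAcomp : IsCompact A := by
    apply BoundedContinuousFunction.arzela_ascoli₂ (Metric.closedBall (0:X) R)
      (isCompact_closedBall _ _) A hAclosed
    · intro g x hg
      exact hg.2 x
    · apply UniformEquicontinuous.equicontinuous
      apply LipschitzWith.uniformEquicontinuous _ 1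
      intro g
      exact g.2.1
  have hprod : IsCompact (Icc (0:ℝ) M ×ˢ A) := isCompact_Icc.prod hAcomp
  obtain ⟨⟨Tl, fl⟩, ⟨hTl, hfl⟩, φ, hφ, hlim⟩ := hprod.tendsto_subseq (x := fun k => (T k, f k))
    (fun k => ⟨⟨hT0 k, hTM k⟩, hfA k⟩)
  have hlim1 : Tendsto (fun k => T (φ k)) atTop (𝓝 Tl) :=
    (continuous_fst.tendsto _).comp hlim
  have hlim2 : Tendsto (fun k => f (φ k)) atTop (𝓝 fl) :=
    (continuous_snd.tendsto _).comp hlim
  have hpt : ∀ x : I, Tendsto (fun k => f (φ k) x) atTop (𝓝 (fl x)) := fun x =>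
    ((hev x).tendsto _).comp hlim2
  refine ⟨φ, hφ, Tl, hTl.1, hlim1, fun t => fl (projIcc 0 M hM t), ?_, ?_, ?_, ?_⟩
  · have := hfl.1.comp (LipschitzWith.projIcc hM)
    rw [one_mul] at this
    exact this
  · have h0 := hpt ⟨0, ⟨le_rfl, hM⟩⟩
    have e1 : ∀ k, f (φ k) ⟨0, ⟨le_rfl, hM⟩⟩ = c (φ k) 0 := by
      intro k
      change c (φ k) (projIcc 0 (T (φ k)) (hT0 (φ k)) 0) = _
      rw [projIcc_of_le_left _ le_rfl]
    have e2 : (projIcc 0 M hM 0) = (⟨0, ⟨le_rfl, hM⟩⟩ : I) := projIcc_of_le_left _ le_rfl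
    simp only [e1] at h0
    show Tendsto _ atTop (𝓝 (fl (projIcc 0 M hM 0)))
    rw [e2]
    exact h0
  · have e2 : (projIcc 0 M hM Tl) = (⟨Tl, hTl⟩ : I) := projIcc_of_mem _ hTl
    show Tendsto _ atTop (𝓝 (fl (projIcc 0 M hM Tl)))
    rw [e2]
    have h0 := hpt ⟨Tl, hTl⟩
    rw [tendsto_iff_dist_tendsto_zero] at h0 ⊢
    have hT' : Tendsto (fun k => dist (T (φ k)) Tl) atTop (𝓝 0) :=
      tendsto_iff_dist_tendsto_zero.1 hlim1
    have hsum := hT'.add h0
    rw [add_zero] at hsum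
    apply squeeze_zero (fun _ => dist_nonneg) _ hsum
    intro k
    have e3 : c (φ k) (T (φ k)) = f (φ k) ⟨T (φ k), ⟨hT0 _, hTM _⟩⟩ := by
      change _ = c (φ k) (projIcc 0 (T (φ k)) (hT0 (φ k)) (T (φ k)))
      rw [projIcc_of_right_le _ le_rfl]
    rw [e3]
    refine (dist_triangle _ (f (φ k) ⟨Tl, hTl⟩) _).trans ?_
    gcongr
    have := (hfA (φ k)).1.dist_le_mul ⟨T (φ k), ⟨hT0 _, hTM _⟩⟩ ⟨Tl, hTl⟩
    rw [Subtype.dist_eq] at this
    simpa using this
  · intro t ht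
    have htM : t ∈ Icc 0 M := ⟨ht.1, ht.2.le.trans hTl.2⟩
    have e2 : (projIcc 0 M hM t) = (⟨t, htM⟩ : I) := projIcc_of_mem _ htM
    show Tendsto _ atTop (𝓝 (fl (projIcc 0 M hM t)))
    rw [e2]
    have h0 := hpt ⟨t, htM⟩
    apply h0.congr'
    filter_upwards [hlim1.eventually (lt_mem_nhds ht.2)] with k hk
    change c (φ k) (projIcc 0 (T (φ k)) (hT0 (φ k)) t) = _
    rw [projIcc_of_mem _ (⟨ht.1, hk.le⟩ : t ∈ Icc 0 (T (φ k)))]

end Pool.Agent.helper25.Polar
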