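import Mathlib

open MeasureTheory Set Filter Topology
open scoped ENNReal NNReal

set_option linter.unusedSectionVars false

namespace Pool.Agent.helper25.Polar

variable {X : Type*} [MetricSpace X]

/-- Truncated inf-convolution. -/
noncomputable def infConv (h : X → ℝ≥0∞) (k : ℕ) (x : X) : ℝ≥0∞ :=
  ⨅ y, (min (h y) k + k * edist x y)

variable {h : X → ℝ≥0∞}

lemma infConv_le (k : ℕ) (x : X) : infConv h k x ≤ h x := by
  refine (iInf_le _ x).trans ?_
  simp

lemma infConv_le_nat (k : ℕ) (x : X) : infConv h k x ≤ k := by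
  refine (iInf_le _ x).trans ?_
  simp

lemma infConv_ne_top (k : ℕ) (x : X) : infConv h k x ≠ ∞ :=
  ne_top_of_le_ne_top (ENNReal.natCast_ne_top k) (infConv_le_nat k x)

lemma infConv_mono (x : X) : Monotone (fun k => infConv h k x) := by
  intro i j hij
  simp only [infConv]
  apply iInf_mono
  intro y
  gcongr

lemma infConv_le_add (k : ℕ) (x y : X) :
    infConv h k x ≤ infConv h k y + k * edist x y := by
  simp only [infConv]
  rw [ENNReal.iInf_add]
  apply le_iInf
  intro z
  refine (iInf_le _ z).trans ?_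
  calc min (h z) k + k * edist x z ≤ min (h z) k + k * (edist x y + edist y z) := by
        gcongr; exact edist_triangle _ _ _
    _ = min (h z) k + k * edist y z + k * edist x y := by ring

lemma infConv_toReal_lipschitz (k : ℕ) :
    LipschitzWith k (fun x => (infConv h k x).toReal) := by
  apply LipschitzWith.of_le_add_mul
  intro x y
  have h1 := infConv_le_add (h := h) k x y
  have h2 : infConv h k y + k * edist x y ≠ ∞ := by
    apply ENNReal.add_ne_top.2
    exact ⟨infConv_ne_top k y, ENNReal.mul_ne_top (ENNReal.natCast_ne_top k) (edist_ne_top x y)⟩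
  have h3 := (ENNReal.toReal_le_toReal (infConv_ne_top k x) h2).2 h1
  rw [ENNReal.toReal_add (infConv_ne_top k y)
    (ENNReal.mul_ne_top (ENNReal.natCast_ne_top k) (edist_ne_top x y)), ENNReal.toReal_mul] at h3
  simpa [edist_dist, ENNReal.toReal_ofReal dist_nonneg] using h3

lemma ofReal_infConv (k : ℕ) (x : X) :
    ENNReal.ofReal ((infConv h k x).toReal) = infConv h k x :=
  ENNReal.ofReal_toReal (infConv_ne_top k x)

lemma iSup_infConv (hh : LowerSemicontinuous h) (x : X) : ⨆ k, infConv h k x = h x := by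
  refine le_antisymm (iSup_le fun k => infConv_le (h := h) k x) ?_
  apply le_of_forall_lt
  intro a ha
  obtain ⟨b, hab, hb⟩ := exists_between ha
  have hbtop : b ≠ ∞ := ne_top_of_lt hb
  refine lt_of_lt_of_le hab ?_
  obtain ⟨δ, hδ, hball⟩ := EMetric.mem_nhds_iff.1 (hh x b hb)
  obtain ⟨δ', hδ'0, hδ'⟩ : ∃ δ' : ℝ≥0, 0 < δ' ∧ (δ' : ℝ≥0∞) < δ := by
    obtain ⟨q, hq0, hq⟩ := ENNReal.lt_iff_exists_nnreal_btwn.1 hδ
    exact ⟨q, by exact_mod_cast hq0, hq⟩
  obtain ⟨k, hk⟩ := exists_nat_ge (max b.toReal (b.toReal / δ'))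
  have hk1 : b ≤ k := by
    rw [← ENNReal.ofReal_toReal hbtop, ← ENNReal.ofReal_natCast]
    exact ENNReal.ofReal_le_ofReal ((le_max_left _ _).trans hk)
  have hk2 : b ≤ k * δ' := by
    have hk3 : b.toReal / δ' ≤ k := (le_max_right _ _).trans hk
    have hδpos : (0:ℝ) < δ' := by exact_mod_cast hδ'0
    rw [div_le_iff₀ hδpos] at hk3
    rw [← ENNReal.ofReal_toReal hbtop, ← ENNReal.ofReal_natCast, ← ENNReal.ofReal_coe_nnreal,
      ← ENNReal.ofReal_mul (by positivity)]
    exact ENNReal.ofReal_le_ofReal hk3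
  refine le_trans ?_ (le_iSup _ k)
  apply le_iInf
  intro y
  by_cases hy : edist x y < δ'
  · have hy' : b < h y := hball (by
      rw [Metric.mem_eball, edist_comm]; exact hy.trans hδ')
    calc b ≤ min (h y) k := le_min hy'.le hk1
      _ ≤ _ := le_self_add
  · calc b ≤ k * δ' := hk2
      _ ≤ k * edist x y := by gcongr; exact not_lt.1 hy
      _ ≤ _ := le_add_self

end Pool.Agent.helper25.Polar
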