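import Mathlib
import Pool.Agent.helper25.Polar.InfConv
import Pool.Agent.helper25.Polar.Barrier
import Pool.Agent.helper25.Polar.Compact

open MeasureTheory Set Filter Topology
open scoped ENNReal NNReal

set_option linter.unusedSectionVars false

namespace Pool.Agent.helper25.Polar

/-- Adding a small multiple of a function of finite energy changes the energy little. -/
lemma exists_small_perturbation {α : Type*} [MeasurableSpace α] {μ : Measure α} {n : ℕ}
    (hn : 1 ≤ n) {h b : α → ℝ≥0∞} (hh : Measurable h) (hb : Measurable b)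
    (hhf : ∫⁻ x, h x ^ n ∂μ ≠ ∞) (hbf : ∫⁻ x, b x ^ n ∂μ ≠ ∞) {δ : ℝ≥0∞} (hδ : δ ≠ 0) :
    ∃ η : ℝ, 0 < η ∧ ∫⁻ x, (h x + ENNReal.ofReal η * b x) ^ n ∂μ ≤ ∫⁻ x, h x ^ n ∂μ + δ := by
  have hn0 : (n:ℝ) ≠ 0 := by positivity
  have hn1 : (1:ℝ) ≤ n := by exact_mod_cast hn
  set a : ℝ≥0∞ := (∫⁻ x, h x ^ n ∂μ) ^ (1 / (n:ℝ)) with ha
  set b' : ℝ≥0∞ := (∫⁻ x, b x ^ n ∂μ) ^ (1 / (n:ℝ)) with hb'
  have hatop : a ≠ ∞ := ENNReal.rpow_ne_top_of_nonneg (by positivity) hhf
  have hbtop : b' ≠ ∞ := ENNReal.rpow_ne_top_of_nonneg (by positivity) hbf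
  have han : a ^ n = ∫⁻ x, h x ^ n ∂μ := by
    rw [ha, ← ENNReal.rpow_natCast, ← ENNReal.rpow_mul, one_div_mul_cancel hn0, ENNReal.rpow_one]
  have key : ∀ η : ℝ, 0 ≤ η → ∫⁻ x, (h x + ENNReal.ofReal η * b x) ^ n ∂μ ≤
      (a + ENNReal.ofReal η * b') ^ n := by
    intro η hη
    have h1 := ENNReal.lintegral_Lp_add_le (μ := μ) (p := (n:ℝ)) (f := h)
      (g := fun x => ENNReal.ofReal η * b x) hh.aemeasurable (hb.const_mul _).aemeasurable hn1
    have h2 : (∫⁻ x, (ENNReal.ofReal η * b x) ^ (n:ℝ) ∂μ) ^ (1 / (n:ℝ)) =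
        ENNReal.ofReal η * b' := by
      simp_rw [ENNReal.mul_rpow_of_nonneg _ _ (by positivity : (0:ℝ) ≤ n)]
      rw [lintegral_const_mul _ (hb.pow_const _)]
      rw [ENNReal.mul_rpow_of_nonneg _ _ (by positivity), ← ENNReal.rpow_mul,
        mul_one_div_cancel hn0, ENNReal.rpow_one]
      simp_rw [ENNReal.rpow_natCast]
      rw [hb']
    rw [h2] at h1
    simp only [Pi.add_apply, ENNReal.rpow_natCast] at h1
    rw [← ha] at h1
    calc ∫⁻ x, (h x + ENNReal.ofReal η * b x) ^ n ∂μ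
        = ((∫⁻ x, (h x + ENNReal.ofReal η * b x) ^ n ∂μ) ^ (1 / (n:ℝ))) ^ n := by
          rw [← ENNReal.rpow_natCast, ← ENNReal.rpow_mul, one_div_mul_cancel hn0,
            ENNReal.rpow_one]
      _ ≤ _ := by gcongr
  have hcont : Tendsto (fun η : ℝ => (a + ENNReal.ofReal η * b') ^ n) (𝓝[>] 0) (𝓝 (a ^ n)) := by
    have h1 : Tendsto (fun η : ℝ => (a + ENNReal.ofReal η * b') ^ n) (𝓝[>] 0)
        (𝓝 ((a + ENNReal.ofReal 0 * b') ^ n)) := by
      apply ENNReal.Tendsto.pow
      apply Tendsto.add tendsto_const_nhds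
      apply ENNReal.Tendsto.mul_const
      · exact (ENNReal.continuous_ofReal.tendsto 0).mono_left nhdsWithin_le_nhds
      · right; exact hbtop
    simpa using h1
  have hlt : a ^ n < ∫⁻ x, h x ^ n ∂μ + δ := by
    rw [han]; exact ENNReal.lt_add_right hhf hδ
  have hev := hcont.eventually (gt_mem_nhds hlt)
  obtain ⟨η, hη, hη0⟩ := (hev.and self_mem_nhdsWithin).exists
  exact ⟨η, hη0, (key η (le_of_lt hη0)).trans hη.le⟩

/-- A measurable metric which is admissible for the `1`-Lipschitz paths from `E` to `F` may be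
replaced by a bounded continuous one, up to a small error. -/
theorem exists_continuous_metric {n : ℕ} (hn : 2 ≤ n) {E F : Set (EuclideanSpace ℝ (Fin n))}
    (hE : IsCompact E) (hF : IsCompact F) {ρ : EuclideanSpace ℝ (Fin n) → ℝ≥0∞}
    (hρ : Measurable ρ) (hfin : ∫⁻ x, ρ x ^ n ≠ ∞)
    (hadm : ∀ T : ℝ, 0 ≤ T → ∀ c : ℝ → EuclideanSpace ℝ (Fin n), LipschitzWith 1 c → c 0 ∈ E →
      c T ∈ F → 1 ≤ ∫⁻ t in Icc 0 T, ρ (c t)) {δ : ℝ} (hδ : 0 < δ) (hδ1 : δ < 1) :
    ∃ g : EuclideanSpace ℝ (Fin n) → ℝ, Continuous g ∧ (∀ x, 0 ≤ g x) ∧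
      (∃ M : ℝ≥0, ∀ x, g x ≤ M) ∧
      ∫⁻ x, ENNReal.ofReal (g x) ^ n ≤ (∫⁻ x, ρ x ^ n) + ENNReal.ofReal δ ∧
      ∀ T : ℝ, 0 ≤ T → ∀ c : ℝ → EuclideanSpace ℝ (Fin n), LipschitzWith 1 c → c 0 ∈ E →
        c T ∈ F → 1 - δ ≤ ∫ t in (0:ℝ)..T, g (c t) := by
  have hn0 : (n:ℝ) ≠ 0 := by positivity
  -- lower semicontinuous majorant
  obtain ⟨f₁, hf₁ge, hf₁lsc, hf₁int⟩ := exists_le_lowerSemicontinuous_lintegral_ge
    (volume : Measure (EuclideanSpace ℝ (Fin n))) (fun x => ρ x ^ n) (hρ.pow_const n)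
    (ε := ENNReal.ofReal (δ / 2)) (by simpa using hδ)
  set h : EuclideanSpace ℝ (Fin n) → ℝ≥0∞ := fun x => f₁ x ^ (1 / (n:ℝ)) with hhdef
  have hhlsc : LowerSemicontinuous h := by
    apply Continuous.comp_lowerSemicontinuous (g := fun y : ℝ≥0∞ => y ^ (1 / (n:ℝ)))
      ENNReal.continuous_rpow_const hf₁lsc
    exact ENNReal.monotone_rpow_of_nonneg (by positivity)
  have hhn : ∀ x, h x ^ n = f₁ x := by
    intro x
    rw [hhdef]
    simp only
    rw [← ENNReal.rpow_natCast, ← ENNReal.rpow_mul, one_div_mul_cancel hn0, ENNReal.rpow_one]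
  have hρh : ∀ x, ρ x ≤ h x := by
    intro x
    have h1 : ρ x = (ρ x ^ n) ^ (1 / (n:ℝ)) := by
      rw [← ENNReal.rpow_natCast, ← ENNReal.rpow_mul, mul_one_div_cancel hn0, ENNReal.rpow_one]
    rw [h1]
    exact ENNReal.rpow_le_rpow (hf₁ge x) (by positivity)
  have hhint : ∫⁻ x, h x ^ n ≤ (∫⁻ x, ρ x ^ n) + ENNReal.ofReal (δ / 2) := by
    simp_rw [hhn]; exact hf₁int
  have hhfin : ∫⁻ x, h x ^ n ≠ ∞ :=
    ne_top_of_le_ne_top (ENNReal.add_ne_top.2 ⟨hfin, ENNReal.ofReal_ne_top⟩) hhint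
  have hbfin : ∫⁻ x : EuclideanSpace ℝ (Fin n), ENNReal.ofReal (bar x) ^ n ≠ ∞ := by
    have h1 := (integrable_bar_pow hn).lintegral_lt_top
    simp_rw [ENNReal.ofReal_pow (bar_pos _).le] at h1
    exact h1.ne
  obtain ⟨η, hη, hηint⟩ := exists_small_perturbation (by omega : 1 ≤ n) hhlsc.measurable
    (bar_continuous.measurable.ennreal_ofReal) hhfin hbfin (δ := ENNReal.ofReal (δ / 2))
    (by simpa using hδ)
  -- continuous approximations
  set G : ℕ → EuclideanSpace ℝ (Fin n) → ℝ := fun k x => (infConv h k x).toReal + η * bar x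
    with hGdef
  have hGcont : ∀ k, Continuous (G k) := fun k =>
    (infConv_toReal_lipschitz k).continuous.add (continuous_const.mul bar_continuous)
  have hG0 : ∀ k x, 0 ≤ G k x := fun k x =>
    add_nonneg ENNReal.toReal_nonneg (mul_nonneg hη.le (bar_pos x).le)
  have hGbar : ∀ k x, η * bar x ≤ G k x := fun k x => by
    simp only [hGdef]
    linarith [ENNReal.toReal_nonneg (a := infConv h k x)]
  have hGof : ∀ k x, ENNReal.ofReal (G k x) = infConv h k x + ENNReal.ofReal η *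
      ENNReal.ofReal (bar x) := by
    intro k x
    simp only [hGdef]
    rw [ENNReal.ofReal_add ENNReal.toReal_nonneg (mul_nonneg hη.le (bar_pos x).le),
      ofReal_infConv, ENNReal.ofReal_mul hη.le]
  have hGmono : ∀ i j, i ≤ j → ∀ x, G i x ≤ G j x := by
    intro i j hij x
    simp only [hGdef]
    gcongr
    · exact infConv_ne_top j x
    · exact infConv_mono x hij
  have hGbd : ∀ k x, G k x ≤ (k + η : ℝ) := by
    intro k x
    simp only [hGdef]
    have h1 : (infConv h k x).toReal ≤ k := by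
      have := ENNReal.toReal_mono (ENNReal.natCast_ne_top k) (infConv_le_nat (h := h) k x)
      simpa using this
    have h2 : η * bar x ≤ η * 1 := by gcongr; exact bar_le_one x
    linarith
  by_contra hcon
  have hbad : ∀ k : ℕ, ∃ T : ℝ, 0 ≤ T ∧ ∃ c : ℝ → EuclideanSpace ℝ (Fin n), LipschitzWith 1 c ∧
      c 0 ∈ E ∧ c T ∈ F ∧ ∫ t in (0:ℝ)..T, G k (c t) < 1 - δ := by
    intro k
    by_contra hk
    push Not at hk
    apply hcon
    refine ⟨G k, hGcont k, hG0 k, ⟨⟨k + η, by positivity⟩, hGbd k⟩, ?_, ?_⟩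
    · calc ∫⁻ x, ENNReal.ofReal (G k x) ^ n
          ≤ ∫⁻ x, (h x + ENNReal.ofReal η * ENNReal.ofReal (bar x)) ^ n := by
            apply lintegral_mono
            intro x
            simp only
            rw [hGof]
            gcongr
            exact infConv_le k x
        _ ≤ (∫⁻ x, h x ^ n) + ENNReal.ofReal (δ / 2) := hηint
        _ ≤ ((∫⁻ x, ρ x ^ n) + ENNReal.ofReal (δ / 2)) + ENNReal.ofReal (δ / 2) := by gcongr
        _ = (∫⁻ x, ρ x ^ n) + ENNReal.ofReal δ := by
            rw [add_assoc, ← ENNReal.ofReal_add (by positivity) (by positivity), add_halves]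
    · intro T hT c hc h0 hT1
      exact hk T hT c hc h0 hT1
  choose T hT0 c hc hcE hcF hact using hbad
  obtain ⟨R₀, hR₀⟩ := hE.isBounded.subset_closedBall (0 : EuclideanSpace ℝ (Fin n))
  set R₁ := max R₀ 0 with hR₁
  -- partial action bound
  have hbaract : ∀ k, ∀ s ∈ Icc 0 (T k), ∫ t in (0:ℝ)..s, bar (c k t) ≤ 1 / η := by
    intro k s hs
    have hbc : Continuous fun t => bar (c k t) := bar_continuous.comp (hc k).continuous
    have hGc : Continuous fun t => G k (c k t) := (hGcont k).comp (hc k).continuous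
    rw [le_div_iff₀ hη]
    calc (∫ t in (0:ℝ)..s, bar (c k t)) * η = ∫ t in (0:ℝ)..s, η * bar (c k t) := by
          rw [intervalIntegral.integral_const_mul, mul_comm]
      _ ≤ ∫ t in (0:ℝ)..s, G k (c k t) := by
          apply intervalIntegral.integral_mono_on hs.1
            ((continuous_const.mul hbc).intervalIntegrable _ _) (hGc.intervalIntegrable _ _)
          intro t _
          exact hGbar k _
      _ ≤ ∫ t in (0:ℝ)..(T k), G k (c k t) := by
          apply intervalIntegral.integral_mono_interval le_rfl hs.1 hs.2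
          · filter_upwards with t using hG0 k _
          · exact hGc.intervalIntegrable _ _
      _ ≤ 1 := by linarith [hact k]
  obtain ⟨R, hR0, hR⟩ : ∃ R : ℝ, 0 ≤ R ∧ Psi R₁ + 1 / η ≤ Psi R := by
    obtain ⟨R, hR⟩ := (Psi_tendsto.eventually_ge_atTop (Psi R₁ + 1 / η)).and
      (eventually_ge_atTop 0) |>.exists
    exact ⟨R, hR.2, hR.1⟩
  have hbound : ∀ k, ∀ s ∈ Icc 0 (T k), ‖c k s‖ ≤ R := by
    intro k s hs
    have h1 := bar_action (hc k) hs.1
    have h2 := hbaract k s hs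
    have h3 : ‖c k 0‖ ≤ R₁ := by
      have := hR₀ (hcE k)
      rw [mem_closedBall_zero_iff] at this
      exact this.trans (le_max_left _ _)
    have h4 : Psi ‖c k 0‖ ≤ Psi R₁ :=
      Psi_strictMonoOn.monotoneOn (norm_nonneg _) (show R₁ ∈ Ici (0:ℝ) from le_max_right R₀ 0) h3
    by_contra hlt
    push Not at hlt
    have h5 : Psi R < Psi ‖c k s‖ := Psi_strictMonoOn hR0 (norm_nonneg _) hlt
    linarith
  have hpsiR : 0 < psi R := psi_pos hR0
  have hTbound : ∀ k, T k ≤ 1 / η / psi R := by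
    intro k
    rw [le_div_iff₀ hpsiR]
    have hbc : Continuous fun t => bar (c k t) := bar_continuous.comp (hc k).continuous
    calc T k * psi R = ∫ t in (0:ℝ)..(T k), psi R := by simp
      _ ≤ ∫ t in (0:ℝ)..(T k), bar (c k t) := by
          apply intervalIntegral.integral_mono_on (hT0 k) (by simp) (hbc.intervalIntegrable _ _)
          intro t ht
          exact psi_antitoneOn (norm_nonneg _) hR0 (hbound k t ht)
      _ ≤ 1 / η := hbaract k _ ⟨hT0 k, le_rfl⟩
  obtain ⟨φ, hφ, Tl, hTl0, hTl, cl, hcl, hcl0, hclT, hclt⟩ :=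
    exists_limit_path T hT0 hTbound c hc hbound
  have hclE : cl 0 ∈ E := hE.isClosed.mem_of_tendsto hcl0 (Eventually.of_forall fun k => hcE _)
  have hclF : cl Tl ∈ F := hF.isClosed.mem_of_tendsto hclT (Eventually.of_forall fun k => hcF _)
  have hfatou : ∀ j : ℕ, ∫⁻ t in Ico 0 Tl, ENNReal.ofReal (G j (cl t)) ≤
      ENNReal.ofReal (1 - δ) := by
    intro j
    set Fk : ℕ → ℝ → ℝ≥0∞ := fun k => (Ico 0 (T (φ k))).indicator
      (fun t => ENNReal.ofReal (G j (c (φ k) t))) with hFk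
    have hFkm : ∀ k, Measurable (Fk k) := by
      intro k
      apply Measurable.indicator _ measurableSet_Ico
      exact (((hGcont j).comp (hc (φ k)).continuous).measurable).ennreal_ofReal
    have h1 : ∀ t, (Ico 0 Tl).indicator (fun t => ENNReal.ofReal (G j (cl t))) t ≤
        liminf (fun k => Fk k t) atTop := by
      intro t
      by_cases ht : t ∈ Ico 0 Tl
      · rw [indicator_of_mem ht]
        have h2 : Tendsto (fun k => Fk k t) atTop (𝓝 (ENNReal.ofReal (G j (cl t)))) := by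
          have h3 : Tendsto (fun k => ENNReal.ofReal (G j (c (φ k) t))) atTop
              (𝓝 (ENNReal.ofReal (G j (cl t)))) :=
            (ENNReal.continuous_ofReal.tendsto _).comp (((hGcont j).tendsto _).comp (hclt t ht))
          apply h3.congr'
          filter_upwards [hTl.eventually (lt_mem_nhds ht.2)] with k hk
          have hmem : t ∈ Ico 0 (T (φ k)) := ⟨ht.1, hk⟩
          simp only [hFk]
          rw [indicator_of_mem hmem]
        rw [h2.liminf_eq]
      · rw [indicator_of_notMem ht]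
        exact zero_le
    have h4 : ∀ k, j ≤ k → ∫⁻ t, Fk k t ≤ ENNReal.ofReal (1 - δ) := by
      intro k hk
      simp only [hFk]
      rw [lintegral_indicator measurableSet_Ico]
      have hGc : Continuous fun t => G (φ k) (c (φ k) t) :=
        (hGcont (φ k)).comp (hc (φ k)).continuous
      calc ∫⁻ t in Ico 0 (T (φ k)), ENNReal.ofReal (G j (c (φ k) t))
          ≤ ∫⁻ t in Ico 0 (T (φ k)), ENNReal.ofReal (G (φ k) (c (φ k) t)) := by
            apply lintegral_mono
            intro t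
            apply ENNReal.ofReal_le_ofReal
            exact hGmono _ _ (hk.trans (hφ.id_le k)) _
        _ = ∫⁻ t in Ioc 0 (T (φ k)), ENNReal.ofReal (G (φ k) (c (φ k) t)) := by
            rw [Measure.restrict_congr_set Ico_ae_eq_Ioc]
        _ = ENNReal.ofReal (∫ t in (0:ℝ)..(T (φ k)), G (φ k) (c (φ k) t)) := by
            rw [intervalIntegral.integral_of_le (hT0 _)]
            rw [ofReal_integral_eq_lintegral_ofReal]
            · exact (hGc.intervalIntegrable 0 (T (φ k))).1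
            · filter_upwards with t using hG0 _ _
        _ ≤ ENNReal.ofReal (1 - δ) := ENNReal.ofReal_le_ofReal (hact _).le
    calc ∫⁻ t in Ico 0 Tl, ENNReal.ofReal (G j (cl t))
        = ∫⁻ t, (Ico 0 Tl).indicator (fun t => ENNReal.ofReal (G j (cl t))) t := by
          rw [lintegral_indicator measurableSet_Ico]
      _ ≤ ∫⁻ t, liminf (fun k => Fk k t) atTop := lintegral_mono h1
      _ ≤ liminf (fun k => ∫⁻ t, Fk k t) atTop := lintegral_liminf_le hFkm
      _ ≤ ENNReal.ofReal (1 - δ) := by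
          apply liminf_le_of_frequently_le'
          apply Eventually.frequently
          filter_upwards [eventually_ge_atTop j] with k hk using h4 k hk
  have hsup : ∫⁻ t in Ico 0 Tl, h (cl t) ≤ ENNReal.ofReal (1 - δ) := by
    calc ∫⁻ t in Ico 0 Tl, h (cl t) = ∫⁻ t in Ico 0 Tl, ⨆ j, infConv h j (cl t) := by
          congr 1; ext t; rw [iSup_infConv hhlsc]
      _ ≤ ∫⁻ t in Ico 0 Tl, ⨆ j, ENNReal.ofReal (G j (cl t)) := by
          apply lintegral_mono
          intro t
          apply iSup_mono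
          intro j
          rw [hGof]
          exact le_self_add
      _ = ⨆ j, ∫⁻ t in Ico 0 Tl, ENNReal.ofReal (G j (cl t)) := by
          apply lintegral_iSup
          · intro j
            exact (((hGcont j).comp hcl.continuous).measurable).ennreal_ofReal
          · intro i j hij t
            exact ENNReal.ofReal_le_ofReal (hGmono i j hij _)
      _ ≤ ENNReal.ofReal (1 - δ) := iSup_le hfatou
  have hone : 1 ≤ ∫⁻ t in Ico 0 Tl, h (cl t) := by
    calc (1:ℝ≥0∞) ≤ ∫⁻ t in Icc 0 Tl, ρ (cl t) := hadm Tl hTl0 cl hcl hclE hclF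
      _ = ∫⁻ t in Ico 0 Tl, ρ (cl t) := by rw [Measure.restrict_congr_set Ico_ae_eq_Icc.symm]
      _ ≤ ∫⁻ t in Ico 0 Tl, h (cl t) := lintegral_mono fun t => hρh _
  have hlt : ENNReal.ofReal (1 - δ) < 1 := by
    rw [← ENNReal.ofReal_one]
    exact (ENNReal.ofReal_lt_ofReal_iff (by norm_num)).2 (by linarith)
  exact absurd (hone.trans hsup) (not_le.2 hlt)

end Pool.Agent.helper25.Polar
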