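import Mathlib

open MeasureTheory Set Filter Topology
open scoped ENNReal NNReal

set_option linter.unusedSectionVars false

namespace Pool.Agent.helper25.Polar

variable {X : Type*} [NormedAddCommGroup X] [NormedSpace ℝ X]

/-- The variation function of a continuous curve is continuous. -/
lemma variation_continuousOn {c : ℝ → X} {s : Set ℝ} {a : ℝ} (ha : a ∈ s)
    (hc : ContinuousOn c s) (hv : LocallyBoundedVariationOn c s) :
    ContinuousOn (variationOnFromTo c s a) s := by
  intro b hb
  have h1 : Tendsto (variationOnFromTo c s a) (𝓝[s ∩ Iio b] b)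
      (𝓝 (variationOnFromTo c s a b)) := by
    have := variationOnFromTo.tendsto_left ha hb hv
      ((hc b hb).mono_left (nhdsWithin_mono _ inter_subset_left) :
        Tendsto c (𝓝[s ∩ Iio b] b) (𝓝 (c b)))
    simpa using this
  have h2 : Tendsto (variationOnFromTo c s a) (𝓝[s ∩ Ioi b] b)
      (𝓝 (variationOnFromTo c s a b)) := by
    have := variationOnFromTo.tendsto_right ha hb hv
      ((hc b hb).mono_left (nhdsWithin_mono _ inter_subset_left) :
        Tendsto c (𝓝[s ∩ Ioi b] b) (𝓝 (c b)))
    simpa using this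
  have h3 : Tendsto (variationOnFromTo c s a) (pure b) (𝓝 (variationOnFromTo c s a b)) :=
    (tendsto_pure_nhds _ _)
  have hle : 𝓝[s] b ≤ 𝓝[s ∩ Iio b] b ⊔ (pure b ⊔ 𝓝[s ∩ Ioi b] b) := by
    rw [← nhdsWithin_singleton, ← nhdsWithin_union, ← nhdsWithin_union]
    apply nhdsWithin_mono
    intro x hx
    rcases lt_trichotomy x b with h | h | h
    · left; exact ⟨hx, h⟩
    · right; left; exact h
    · right; right; exact ⟨hx, h⟩
  exact (h1.sup (h3.sup h2)).mono_left hle

/-- Arc-length parametrization of a rectifiable curve, extended to a globally `1`-Lipschitz map. -/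
theorem exists_arclength {c : ℝ → X} {a b : ℝ} (hab : a ≤ b) (hc : ContinuousOn c (Icc a b))
    (hv : LocallyBoundedVariationOn c (Icc a b)) :
    ∃ d : ℝ → X, LipschitzWith 1 d ∧ d 0 = c a ∧ d (eVariationOn c (Icc a b)).toReal = c b ∧
      (∀ s ∈ Icc 0 (eVariationOn c (Icc a b)).toReal,
        d s = naturalParameterization c (Icc a b) a s) ∧
      ∀ t ∈ Icc a b, d (variationOnFromTo c (Icc a b) a t) = c t := by
  set S := Icc a b with hS
  have haS : a ∈ S := left_mem_Icc.2 hab
  have hbS : b ∈ S := right_mem_Icc.2 hab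
  set V := variationOnFromTo c S a with hV
  set L := (eVariationOn c S).toReal with hL
  have hVb : V b = L := by
    rw [hV, variationOnFromTo.eq_of_le _ _ hab, hS, inter_self]
  have hVa : V a = 0 := variationOnFromTo.self _ _ _
  have hVmono : MonotoneOn V S := variationOnFromTo.monotoneOn hv haS
  have hVcont : ContinuousOn V S := variation_continuousOn haS hc hv
  have hL0 : 0 ≤ L := ENNReal.toReal_nonneg
  have himage : V '' S = Icc 0 L := by
    apply Subset.antisymm
    · rintro _ ⟨t, ht, rfl⟩
      rw [← hVa, ← hVb]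
      exact ⟨hVmono haS ht ht.1, hVmono ht hbS ht.2⟩
    · have := intermediate_value_Icc hab hVcont
      rwa [hVa, hVb] at this
  set N := naturalParameterization c S a with hN
  have hunit : HasUnitSpeedOn N (Icc 0 L) := by
    rw [← himage]
    exact has_unit_speed_naturalParameterization c hv haS
  have hNlip : LipschitzOnWith 1 N (Icc 0 L) := by
    intro x hx y hy
    wlog hxy : x ≤ y generalizing x y
    · rw [edist_comm, edist_comm x y]
      exact this hy hx (le_of_not_ge hxy)
    have h1 := hunit hx hy
    have h2 : edist (N x) (N y) ≤ eVariationOn N (Icc 0 L ∩ Icc x y) :=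
      eVariationOn.edist_le N ⟨hx, ⟨le_rfl, hxy⟩⟩ ⟨hy, ⟨hxy, le_rfl⟩⟩
    rw [h1] at h2
    refine h2.trans ?_
    rw [edist_dist, Real.dist_eq, abs_sub_comm, abs_of_nonneg (by linarith : 0 ≤ y - x)]
    simp
  have hNV : ∀ t ∈ S, N (V t) = c t := by
    intro t ht
    exact edist_eq_zero.1 (edist_naturalParameterization_eq_zero hv haS ht)
  have hproj : ∀ s ∈ Icc 0 L, N (projIcc 0 L hL0 s) = N s := by
    intro s hs
    rw [projIcc_of_mem _ hs]
  refine ⟨fun s => N (projIcc 0 L hL0 s), ?_, ?_, ?_, hproj, ?_⟩
  · have h1 : LipschitzWith 1 (fun s : Icc 0 L => N s) := by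
      exact hNlip.to_restrict
    have h2 := h1.comp (LipschitzWith.projIcc hL0)
    rw [one_mul] at h2
    exact h2
  · show N (projIcc 0 L hL0 0) = c a
    rw [hproj 0 ⟨le_rfl, hL0⟩, ← hVa]
    exact hNV a haS
  · show N (projIcc 0 L hL0 L) = c b
    rw [hproj L ⟨hL0, le_rfl⟩, ← hVb]
    exact hNV b hbS
  · intro t ht
    have hmem : V t ∈ Icc 0 L := by rw [← himage]; exact ⟨t, ht, rfl⟩
    show N (projIcc 0 L hL0 (V t)) = c t
    rw [hproj _ hmem]
    exact hNV t ht

/-- The image of a set under a `1`-Lipschitz real function has no larger measure. -/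
lemma volume_image_le {f : ℝ → ℝ} (hf : LipschitzWith 1 f) (s : Set ℝ) :
    volume (f '' s) ≤ volume s := by
  have h := hf.hausdorffMeasure_image_le (d := 1) zero_le_one s
  have e : (Measure.hausdorffMeasure 1 : Measure ℝ) = volume := hausdorffMeasure_real
  simpa [e] using h

/-- For a `1`-Lipschitz parametrization, the arc-length integral is at most the time integral. -/
theorem arclength_integral_le [MeasurableSpace X] [BorelSpace X] {c : ℝ → X}
    (hc : LipschitzWith 1 c) {T : ℝ} (hT : 0 ≤ T) {ρ : X → ℝ≥0∞} (hρ : Measurable ρ) :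
    ∫⁻ s in Icc 0 (eVariationOn c (Icc 0 T)).toReal,
      ρ (naturalParameterization c (Icc 0 T) 0 s) ≤ ∫⁻ t in Icc 0 T, ρ (c t) := by
  set S := Icc 0 T with hS
  have h0S : (0:ℝ) ∈ S := left_mem_Icc.2 hT
  have hTS : T ∈ S := right_mem_Icc.2 hT
  have hvar : ∀ s t : ℝ, s ≤ t → eVariationOn c (S ∩ Icc s t) ≤ ENNReal.ofReal (t - s) := by
    intro s t hst
    have h1 := (hc.lipschitzOnWith (s := univ)).comp_eVariationOn_le (g := (id : ℝ → ℝ))
      (s := Icc s t) (fun _ _ => mem_univ _)
    have h2 : eVariationOn (id : ℝ → ℝ) (Icc s t) ≤ ENNReal.ofReal (t - s) := by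
      have := (monotone_id.monotoneOn (Icc s t)).eVariationOn_eq (left_mem_Icc.2 hst)
        (right_mem_Icc.2 hst)
      rw [inter_self] at this
      rw [this]
      simp
    calc eVariationOn c (S ∩ Icc s t) ≤ eVariationOn c (Icc s t) :=
          eVariationOn.mono _ inter_subset_right
      _ ≤ ENNReal.ofReal (t - s) := by
          refine h1.trans ?_
          simpa using h2
  have hv : LocallyBoundedVariationOn c S := by
    intro s t _ _
    rcases le_total s t with hst | hst
    · exact ne_top_of_le_ne_top ENNReal.ofReal_ne_top (hvar s t hst)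
    · apply ne_top_of_le_ne_top (ENNReal.ofReal_ne_top (r := s - s)) _
      refine (eVariationOn.mono c ?_).trans (hvar s s le_rfl)
      intro x hx
      exact ⟨hx.1, hx.2.1, hx.2.2.trans hst⟩
  obtain ⟨d, hd, -, -, hdN, hdV⟩ := exists_arclength hT hc.continuous.continuousOn hv
  set L := (eVariationOn c S).toReal with hL
  set V := variationOnFromTo c S 0 with hV
  have hVL : LipschitzWith 1 (fun t => V (projIcc 0 T hT t)) := by
    have h1 : LipschitzOnWith 1 V S := by
      intro x hx y hy
      wlog hxy : x ≤ y generalizing x y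
      · rw [edist_comm, edist_comm x y]
        exact this hy hx (le_of_not_ge hxy)
      have h2 : V y - V x = variationOnFromTo c S x y :=
        variationOnFromTo.sub_right hv h0S hy hx
      have h3 : variationOnFromTo c S x y = (eVariationOn c (S ∩ Icc x y)).toReal :=
        variationOnFromTo.eq_of_le _ _ hxy
      have h4 : 0 ≤ V y - V x := by rw [h2, h3]; exact ENNReal.toReal_nonneg
      rw [edist_comm, edist_dist, Real.dist_eq, abs_of_nonneg h4, h2, h3,
        edist_comm, edist_dist, Real.dist_eq, abs_of_nonneg (by linarith : 0 ≤ y - x)]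
      rw [ENNReal.ofReal_toReal (hv x y hx hy)]
      simpa using hvar x y hxy
    have h2 := h1.to_restrict.comp (LipschitzWith.projIcc hT)
    rw [one_mul] at h2
    exact h2
  have hVsurj : Icc 0 L ⊆ (fun t => V (projIcc 0 T hT t)) '' S := by
    have hVcont : ContinuousOn V S := variation_continuousOn h0S hc.continuous.continuousOn hv
    have h1 := intermediate_value_Icc hT hVcont
    have hVb : V T = L := by
      rw [hV, variationOnFromTo.eq_of_le _ _ hT, ← hS, inter_self]
    have hVa : V 0 = 0 := variationOnFromTo.self _ _ _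
    rw [hVa, hVb] at h1
    intro s hs
    obtain ⟨t, ht, rfl⟩ := h1 hs
    exact ⟨t, ht, by simp only [projIcc_of_mem _ ht]⟩
  set W := fun t => V (projIcc 0 T hT t) with hW
  have hmeas : volume.restrict (Icc 0 L) ≤ Measure.map W (volume.restrict S) := by
    rw [Measure.le_iff]
    intro A hA
    rw [Measure.restrict_apply hA, Measure.map_apply hVL.continuous.measurable hA,
      Measure.restrict_apply (hVL.continuous.measurable hA)]
    calc volume (A ∩ Icc 0 L) ≤ volume (W '' (W ⁻¹' A ∩ S)) := by
          apply measure_mono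
          rintro x ⟨hxA, hxL⟩
          obtain ⟨t, ht, rfl⟩ := hVsurj hxL
          exact ⟨t, ⟨hxA, ht⟩, rfl⟩
      _ ≤ volume (W ⁻¹' A ∩ S) := volume_image_le hVL _
  calc ∫⁻ s in Icc 0 L, ρ (naturalParameterization c S 0 s)
      = ∫⁻ s in Icc 0 L, ρ (d s) := by
        apply setLIntegral_congr_fun measurableSet_Icc
        intro s hs
        simp only [hdN s hs, hS]
    _ ≤ ∫⁻ s, ρ (d s) ∂(Measure.map W (volume.restrict S)) := lintegral_mono' hmeas le_rfl
    _ = ∫⁻ t in S, ρ (d (W t)) :=
        lintegral_map (hρ.comp hd.continuous.measurable) hVL.continuous.measurable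
    _ = ∫⁻ t in S, ρ (c t) := by
        apply setLIntegral_congr_fun measurableSet_Icc
        intro t ht
        simp only [hW, projIcc_of_mem _ ht]
        rw [hdV t ht]

end Pool.Agent.helper25.Polar
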